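import Mathlib

/-!
# Commuting graphs of semigroups of rank at most 3 have unbounded diameter

For `n = 2h` we use the finite semigroup
`S = D_n ∪ (ℤ/n × ℤ/n) ∪ {0}`, where the dihedral group `D_n` acts on `ℤ/n`, the pairs form a
Rees matrix semigroup `(i,l)(j,m) = (i,m)` unless `l` and `j` are equal or cyclically adjacent, in
which case the product is `0`.
-/

namespace Pool.Agent.Results.MP_cf426b_al.RankThree

/-- The centre `Z(S) = {z ∈ S : z s = s z for all s ∈ S}`. -/
def centre (S : Type) [Semigroup S] : Set S := {z | ∀ s, z * s = s * z}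

/-- The commuting graph `Γ(S)`: vertex set `S \ Z(S)`, distinct vertices are adjacent iff they
commute. -/
def commutingGraph (S : Type) [Semigroup S] : SimpleGraph {x : S // x ∉ centre S} where
  Adj x y := x ≠ y ∧ (x : S) * (y : S) = (y : S) * (x : S)
  symm := ⟨fun _ _ h => ⟨h.1.symm, h.2.symm⟩⟩
  loopless := ⟨fun _ h => h.1 rfl⟩

/-- `S` has rank at most `d`: some set of at most `d` elements generates `S` as a semigroup. -/
def RankLE (S : Type) [Semigroup S] (d : ℕ) : Prop :=
  ∃ A : Finset S, A.card ≤ d ∧ Subsemigroup.closure (A : Set S) = ⊤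

section construction

variable {n : ℕ}

/-- The action of the dihedral group on `ℤ/n`. -/
def act : DihedralGroup n → ZMod n → ZMod n
  | .r k, x => x + k
  | .sr k, x => -x - k

theorem act_mul (a b : DihedralGroup n) (x : ZMod n) : act (a * b) x = act a (act b x) := by
  cases a <;> cases b <;> simp [act] <;> ring

theorem act_one (x : ZMod n) : act 1 x = x := by
  show x + 0 = x
  simp

theorem act_inv_act (a : DihedralGroup n) (x : ZMod n) : act a⁻¹ (act a x) = x := by
  rw [← act_mul]; simp [act_one]

theorem act_act_inv (a : DihedralGroup n) (x : ZMod n) : act a (act a⁻¹ x) = x := by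
  rw [← act_mul]; simp [act_one]

/-- equal or cyclically adjacent. -/
def near (x y : ZMod n) : Prop := x - y = 1 ∨ x - y = 0 ∨ x - y = -1

theorem near_act (a : DihedralGroup n) (x y : ZMod n) : near (act a x) (act a y) ↔ near x y := by
  cases a with
  | r k => simp [near, act]
  | sr k =>
    have h : (-x - k) - (-y - k) = -(x - y) := by ring
    simp only [near, act, h]
    constructor
    · rintro (h | h | h)
      · right; right; rw [← h]; ring
      · right; left; rw [neg_eq_zero] at h; exact h
      · left; exact neg_injective h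
    · rintro (h | h | h)
      · right; right; rw [h]
      · right; left; rw [h]; ring
      · left; rw [h]; ring

theorem near_symm {x y : ZMod n} (h : near x y) : near y x := by
  have e : y - x = -(x - y) := by ring
  unfold near
  rw [e]
  rcases h with h | h | h
  · right; right; rw [h]
  · right; left; rw [h]; ring
  · left; rw [h]; ring

/-- The underlying type of the semigroup. -/
inductive T (n : ℕ) : Type
  | g (a : DihedralGroup n) : T n
  | p (i l : ZMod n) : T n
  | z : T n
  deriving DecidableEq

open Classical in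
/-- Multiplication. -/
noncomputable def T.mul : T n → T n → T n
  | .g a, .g b => .g (a * b)
  | .g a, .p i l => .p (act a i) l
  | .p i l, .g a => .p i (act a⁻¹ l)
  | .p i l, .p j m => if near l j then .z else .p i m
  | .z, _ => .z
  | _, .z => .z

noncomputable instance : Mul (T n) := ⟨T.mul⟩

open T

theorem gg (a b : DihedralGroup n) : (g a * g b : T n) = g (a * b) := rfl
theorem gp (a : DihedralGroup n) (i l : ZMod n) : (g a * p i l : T n) = p (act a i) l := rfl
theorem pg (a : DihedralGroup n) (i l : ZMod n) : (p i l * g a : T n) = p i (act a⁻¹ l) := rfl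
open Classical in
theorem pp (i l j m : ZMod n) : (p i l * p j m : T n) = if near l j then .z else .p i m := rfl
theorem zl (x : T n) : (z * x : T n) = z := by cases x <;> rfl
theorem zr (x : T n) : (x * z : T n) = z := by cases x <;> rfl

noncomputable instance : Semigroup (T n) where
  mul_assoc := by
    intro x y w
    cases x <;> cases y <;> cases w <;>
      simp only [gg, gp, pg, pp, zl, zr, mul_assoc, act_mul, mul_inv_rev]
    · rename_i a i l j m
      split_ifs <;> simp [gp, zr]
    · rename_i i l a j m
      have h : near (act a⁻¹ l) j ↔ near l (act a j) := by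
        rw [← near_act a, act_act_inv]
      by_cases h' : near l (act a j)
      · rw [if_pos h', if_pos (h.2 h')]
      · rw [if_neg h', if_neg (fun h'' => h' (h.1 h''))]
    · rename_i i l j m a
      split_ifs <;> simp [pg, zl]
    · rename_i i l j m k o
      by_cases h1 : near l j <;> by_cases h2 : near m k <;> simp [h1, h2, pp, zl, zr]

/-! ### Generators -/

theorem rank_le (hn : n ≠ 0) : RankLE (T n) 3 := by
  classical
  have : NeZero n := ⟨hn⟩
  refine ⟨{g (.r 1), g (.sr 0), p 0 0}, Finset.card_le_three, ?_⟩
  rw [eq_top_iff]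
  set C := Subsemigroup.closure ((({g (.r 1), g (.sr 0), p 0 0} : Finset (T n)) : Set (T n)))
    with hC
  have hr1 : g (.r 1) ∈ C := Subsemigroup.subset_closure (by simp)
  have hs0 : g (.sr 0) ∈ C := Subsemigroup.subset_closure (by simp)
  have hp0 : p 0 0 ∈ C := Subsemigroup.subset_closure (by simp)
  have hrk : ∀ k : ℕ, g (.r ((k + 1 : ℕ) : ZMod n)) ∈ C := by
    intro k
    induction k with
    | zero => simpa using hr1
    | succ k ih =>
      have := C.mul_mem ih hr1
      rw [gg, DihedralGroup.r_mul_r] at this
      convert this using 3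
      push_cast
      ring
  have hr : ∀ k : ZMod n, g (.r k) ∈ C := by
    intro k
    obtain ⟨m, hm⟩ : ∃ m : ℕ, ((m + 1 : ℕ) : ZMod n) = k := by
      refine ⟨(k - 1).val, ?_⟩
      push_cast
      rw [ZMod.natCast_zmod_val]
      ring
    rw [← hm]
    exact hrk m
  have hsr : ∀ k : ZMod n, g (.sr k) ∈ C := by
    intro k
    have := C.mul_mem hs0 (hr k)
    rw [gg, DihedralGroup.sr_mul_r, zero_add] at this
    exact this
  have hg : ∀ a : DihedralGroup n, g a ∈ C := by
    intro a
    cases a with
    | r k => exact hr k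
    | sr k => exact hsr k
  intro x _
  cases x with
  | g a => exact hg a
  | p i l =>
    have h1 := C.mul_mem (C.mul_mem (hg (.r i)) hp0) (hg (.r (-l)))
    have e : (g (.r i) * p 0 0 * g (.r (-l)) : T n) = p i l := by
      rw [gp, pg]
      simp [act]
    rw [e] at h1
    exact h1
  | z =>
    have h1 := C.mul_mem hp0 hp0
    have e : (p 0 0 * p 0 0 : T n) = z := by
      rw [pp, if_pos]
      right; left; simp
    rw [e] at h1
    exact h1

theorem p_notin {n : ℕ} (hn : 2 < n) (i l : ZMod n) : (p i l : T n) ∉ centre (T n) := by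
  have : Fact (1 < n) := ⟨by omega⟩
  intro h
  have h1 := h (g (.r 1))
  rw [gp, pg] at h1
  simp only [act, p.injEq] at h1
  have h2 : (1 : ZMod n) = 0 := by
    have := h1.1
    rw [eq_comm, add_eq_left] at this
    exact this
  exact one_ne_zero h2

theorem g_notin {n : ℕ} (hn : 2 < n) (a : DihedralGroup n) (ha : a ≠ 1) :
    (g a : T n) ∉ centre (T n) := by
  have : Fact (1 < n) := ⟨by omega⟩
  intro h
  have key : ∀ i, act a i = i := by
    intro i
    have h1 := h (p i 0)
    rw [gp, pg] at h1
    simp only [p.injEq] at h1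
    exact h1.1
  cases a with
  | r k =>
    have h1 := key 0
    simp only [act, zero_add] at h1
    exact ha (by rw [h1]; rfl)
  | sr k =>
    have h0 := key 0
    have h1 := key 1
    simp only [act] at h0 h1
    have hk : k = 0 := by
      have : -k = 0 := by simpa using h0
      simpa using this
    rw [hk] at h1
    have h2 : ((2 : ℕ) : ZMod n) = 0 := by
      have : (1 : ZMod n) - (-1 - 0) = 0 := by rw [h1]; ring
      push_cast
      calc (2 : ZMod n) = 1 - (-1 - 0) := by ring
        _ = 0 := this
    rw [ZMod.natCast_eq_zero_iff] at h2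
    exact absurd (Nat.le_of_dvd (by norm_num) h2) (by omega)

theorem z_in : (z : T n) ∈ centre (T n) := fun s => by rw [zl, zr]

theorem g_one_in : (g 1 : T n) ∈ centre (T n) := by
  intro s
  cases s with
  | g a => rw [gg, gg, one_mul, mul_one]
  | p i l => rw [gp, pg, inv_one, act_one, act_one]
  | z => rw [zl, zr]

theorem pp_comm_of_near {i l j m : ZMod n} (h1 : near l j) (h2 : near m i) :
    (p i l * p j m : T n) = p j m * p i l := by
  rw [pp, pp, if_pos h1, if_pos h2]

theorem near_of_pp_comm {i l j m : ZMod n} (h : (p i l * p j m : T n) = p j m * p i l)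
    (hne : (p i l : T n) ≠ p j m) : near l j ∧ near m i := by
  rw [pp, pp] at h
  by_cases h1 : near l j
  · by_cases h2 : near m i
    · exact ⟨h1, h2⟩
    · rw [if_pos h1, if_neg h2] at h
      cases h
  · by_cases h2 : near m i
    · rw [if_neg h1, if_pos h2] at h
      cases h
    · rw [if_neg h1, if_neg h2] at h
      simp only [p.injEq] at h
      exact absurd (by rw [h.1, h.2]) hne

/-! ### Connectedness -/

section conn

variable {h : ℕ}

/-- a vertex of the commuting graph -/
def vp (hh : 1 < h) (i l : ZMod (2 * h)) : {x : T (2 * h) // x ∉ centre (T (2 * h))} :=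
  ⟨p i l, p_notin (by omega) i l⟩

/-- a vertex of the commuting graph -/
def vg (hh : 1 < h) (a : DihedralGroup (2 * h)) (ha : a ≠ 1) :
    {x : T (2 * h) // x ∉ centre (T (2 * h))} :=
  ⟨g a, g_notin (by omega) a ha⟩

theorem reach_p_step (hh : 1 < h) (i l : ZMod (2 * h)) :
    (commutingGraph (T (2 * h))).Reachable (vp hh i l) (vp hh i (l + 1)) := by
  have : Fact (1 < 2 * h) := ⟨by omega⟩
  have h1 : (commutingGraph (T (2 * h))).Reachable (vp hh i l) (vp hh (l + 1) i) := by
    apply SimpleGraph.Adj.reachable
    refine ⟨?_, ?_⟩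
    · intro e
      have e' := congrArg Subtype.val e
      simp only [vp, p.injEq] at e'
      have : (1 : ZMod (2 * h)) = 0 := by
        have h2 := e'.1
        rw [← e'.2, eq_comm, add_eq_left] at h2
        exact h2
      exact one_ne_zero this
    · apply pp_comm_of_near
      · right; right; ring
      · right; left; ring
  have h2 : (commutingGraph (T (2 * h))).Reachable (vp hh (l + 1) i) (vp hh i (l + 1)) := by
    by_cases e : i = l + 1
    · rw [← e]
    · apply SimpleGraph.Adj.reachable
      refine ⟨?_, ?_⟩
      · intro e'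
        have e'' := congrArg Subtype.val e'
        simp only [vp, p.injEq] at e''
        exact e e''.2
      · apply pp_comm_of_near
        · right; left; ring
        · right; left; ring
  exact h1.trans h2

theorem reach_p (hh : 1 < h) (i l m : ZMod (2 * h)) :
    (commutingGraph (T (2 * h))).Reachable (vp hh i l) (vp hh i m) := by
  have : NeZero (2 * h) := ⟨by omega⟩
  have key : ∀ k : ℕ,
      (commutingGraph (T (2 * h))).Reachable (vp hh i l) (vp hh i (l + (k : ZMod (2 * h)))) := by
    intro k
    induction k with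
    | zero => simp
    | succ k ih =>
      have := ih.trans (reach_p_step hh i (l + (k : ZMod (2 * h))))
      have e : l + (k : ZMod (2 * h)) + 1 = l + ((k + 1 : ℕ) : ZMod (2 * h)) := by
        push_cast; ring
      rw [e] at this
      exact this
  have := key (m - l).val
  rw [ZMod.natCast_zmod_val] at this
  simpa using this

theorem rh_ne (hh : 1 < h) : (DihedralGroup.r (h : ZMod (2 * h))) ≠ 1 := by
  intro e
  have e' : (h : ZMod (2 * h)) = 0 := by
    exact DihedralGroup.r.inj (show DihedralGroup.r (h : ZMod (2 * h)) = DihedralGroup.r 0 from e)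
  rw [ZMod.natCast_eq_zero_iff] at e'
  exact absurd (Nat.le_of_dvd (by omega) e') (by omega)

theorem two_h : (h : ZMod (2 * h)) + h = 0 := by
  have : ((2 * h : ℕ) : ZMod (2 * h)) = 0 := ZMod.natCast_self _
  push_cast at this
  rw [← two_mul]
  exact this

theorem reach_g (hh : 1 < h) (a : DihedralGroup (2 * h)) (ha : a ≠ 1) :
    (commutingGraph (T (2 * h))).Reachable (vg hh a ha) (vg hh _ (rh_ne hh)) := by
  by_cases e : a = DihedralGroup.r (h : ZMod (2 * h))
  · subst e
    exact SimpleGraph.Reachable.refl _
  · apply SimpleGraph.Adj.reachable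
    refine ⟨?_, ?_⟩
    · intro e'
      have e'' := congrArg Subtype.val e'
      simp only [vg, g.injEq] at e''
      exact e e''
    · show (g a * g _ : T (2 * h)) = g _ * g a
      rw [gg, gg]
      congr 1
      cases a with
      | r k => simp [add_comm]
      | sr k =>
        simp only [DihedralGroup.sr_mul_r, DihedralGroup.r_mul_sr, DihedralGroup.sr.injEq]
        have := two_h (h := h)
        linear_combination this

theorem connected (hh : 1 < h) : (commutingGraph (T (2 * h))).Connected := by
  have : Nonempty {x : T (2 * h) // x ∉ centre (T (2 * h))} := ⟨vg hh _ (rh_ne hh)⟩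
  refine ⟨?_⟩
  have key : ∀ v, (commutingGraph (T (2 * h))).Reachable v (vg hh _ (rh_ne hh)) := by
    rintro ⟨x, hx⟩
    cases x with
    | g a =>
      by_cases ha : a = 1
      · exact absurd (ha ▸ g_one_in) hx
      · exact reach_g hh a ha
    | z => exact absurd z_in hx
    | p i l =>
      have h1 : (commutingGraph (T (2 * h))).Reachable ⟨p i l, hx⟩ (vp hh i i) :=
        reach_p hh i l i
      have hs : (DihedralGroup.sr (-2 * i) : DihedralGroup (2 * h)) ≠ 1 := by
        intro e
        cases e
      refine h1.trans ((SimpleGraph.Adj.reachable ?_).trans (reach_g hh _ hs))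
      refine ⟨?_, ?_⟩
      · intro e
        have e' := congrArg Subtype.val e
        simp only [vp, vg] at e'
        cases e'
      · show (p i i * g _ : T (2 * h)) = g _ * p i i
        rw [gp, pg]
        simp only [DihedralGroup.inv_sr, act, p.injEq]
        constructor <;> ring
  intro u v
  exact (key u).trans (key v).symm

/-! ### The diameter -/

/-- the potential function -/
def pot (h : ℕ) : T (2 * h) → ℕ
  | .g _ => 0
  | .p i l => (ZMod.castHom (dvd_mul_left h 2) (ZMod h) (l - i)).valMinAbs.natAbs
  | .z => 0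

theorem near_cast {x y : ZMod (2 * h)} (hxy : near x y) :
    (ZMod.castHom (dvd_mul_left h 2) (ZMod h) (x - y)).valMinAbs.natAbs ≤ 1 := by
  have h1 : (1 : ZMod h).valMinAbs.natAbs ≤ 1 := by
    rcases h with _ | _ | h
    · decide
    · decide
    · have := ZMod.valMinAbs_natCast_of_le_half (n := h + 2) (a := 1) (by omega)
      rw [Nat.cast_one] at this
      rw [this]
      simp
  rcases hxy with e | e | e
  · rw [e, map_one]; exact h1
  · rw [e, map_zero]; simp
  · rw [e, map_neg, map_one, ZMod.natAbs_valMinAbs_neg]; exact h1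

theorem vma_add (a b : ZMod h) :
    (a + b).valMinAbs.natAbs ≤ a.valMinAbs.natAbs + b.valMinAbs.natAbs :=
  (ZMod.natAbs_valMinAbs_add_le a b).trans (Int.natAbs_add_le _ _)

theorem cast_zero_of_double {x : ZMod (2 * h)} (hh : 1 < h) (hx : 2 * x = 0) :
    ZMod.castHom (dvd_mul_left h 2) (ZMod h) x = 0 := by
  have : NeZero (2 * h) := ⟨by omega⟩
  have h1 : ((2 * x.val : ℕ) : ZMod (2 * h)) = 0 := by
    push_cast
    rw [ZMod.natCast_zmod_val]
    exact hx
  rw [ZMod.natCast_eq_zero_iff] at h1
  have h2 : h ∣ x.val := Nat.dvd_of_mul_dvd_mul_left (by norm_num) h1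
  have h3 : ZMod.castHom (dvd_mul_left h 2) (ZMod h) ((x.val : ℕ) : ZMod (2 * h)) = 0 := by
    rw [map_natCast]
    exact (ZMod.natCast_eq_zero_iff _ _).2 h2
  rwa [ZMod.natCast_zmod_val] at h3

theorem pot_gp (hh : 1 < h) (a : DihedralGroup (2 * h)) (ha : a ≠ 1) (i l : ZMod (2 * h))
    (hc : (g a * p i l : T (2 * h)) = p i l * g a) : pot h (p i l) = 0 := by
  rw [gp, pg] at hc
  simp only [p.injEq] at hc
  cases a with
  | r k =>
    exfalso
    simp only [act, add_eq_left] at hc
    exact ha (by rw [hc.1]; rfl)
  | sr k =>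
    simp only [act, DihedralGroup.inv_sr] at hc
    have h2 : 2 * (l - i) = 0 := by linear_combination hc.1 + hc.2
    show (ZMod.castHom (dvd_mul_left h 2) (ZMod h) (l - i)).valMinAbs.natAbs = 0
    rw [cast_zero_of_double hh h2]
    simp

theorem pot_adj (hh : 1 < h) (u v : {x : T (2 * h) // x ∉ centre (T (2 * h))})
    (huv : (commutingGraph (T (2 * h))).Adj u v) : pot h u.1 ≤ pot h v.1 + 2 := by
  obtain ⟨x, hx⟩ := u
  obtain ⟨y, hy⟩ := v
  obtain ⟨hne, hc⟩ := huv
  have hne' : x ≠ y := fun e => hne (Subtype.ext e)
  simp only at hc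
  cases x with
  | z => exact absurd z_in hx
  | g a => simp [pot]
  | p i l =>
    cases y with
    | z => exact absurd z_in hy
    | g a =>
      have ha : a ≠ 1 := fun ha => absurd (ha ▸ g_one_in) hy
      have := pot_gp hh a ha i l hc.symm
      show pot h (p i l) ≤ _
      omega
    | p j m =>
      obtain ⟨h1, h2⟩ := near_of_pp_comm hc hne'
      have e : l - i = -(m - j) + ((l - j) + (m - i)) := by ring
      show (ZMod.castHom (dvd_mul_left h 2) (ZMod h) (l - i)).valMinAbs.natAbs ≤
        (ZMod.castHom (dvd_mul_left h 2) (ZMod h) (m - j)).valMinAbs.natAbs + 2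
      rw [e, map_add, map_add, map_neg]
      have h3 := near_cast h1
      have h4 := near_cast h2
      refine (vma_add _ _).trans ?_
      rw [ZMod.natAbs_valMinAbs_neg]
      have h5 := vma_add (ZMod.castHom (dvd_mul_left h 2) (ZMod h) (l - j))
        (ZMod.castHom (dvd_mul_left h 2) (ZMod h) (m - i))
      omega

theorem pot_walk (hh : 1 < h) {u v : {x : T (2 * h) // x ∉ centre (T (2 * h))}}
    (w : (commutingGraph (T (2 * h))).Walk u v) : pot h u.1 ≤ pot h v.1 + 2 * w.length := by
  induction w with
  | nil => simp
  | cons hadj w ih =>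
    have := pot_adj hh _ _ hadj
    rw [SimpleGraph.Walk.length_cons]
    omega

end conn

end construction

/-- **Answer to Q1 (yes, with `d = 3`).**  For every `D` there is a finite semigroup `S` of rank at
most `3` whose commuting graph is connected and has diameter at least `D`. -/
theorem result : ∃ d : ℕ, 1 ≤ d ∧ d ≤ 3 ∧ ∀ D : ℕ, ∃ (S : Type) (_ : Semigroup S),
    Finite S ∧ RankLE S d ∧ (commutingGraph S).Connected ∧
      (D : ℕ∞) ≤ (commutingGraph S).ediam := by
  refine ⟨3, by norm_num, le_rfl, fun D => ?_⟩
  set h := 4 * (D + 1) with hdef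
  have hh : 1 < h := by omega
  refine ⟨T (2 * h), inferInstance, ?_, rank_le (by omega), connected hh, ?_⟩
  · have : NeZero (2 * h) := ⟨by omega⟩
    let F : DihedralGroup (2 * h) ⊕ (ZMod (2 * h) × ZMod (2 * h)) ⊕ Unit → T (2 * h) := fun x =>
      match x with
      | .inl a => .g a
      | .inr (.inl (i, l)) => .p i l
      | .inr (.inr _) => .z
    refine Finite.of_surjective F ?_
    intro x
    cases x with
    | g a => exact ⟨.inl a, rfl⟩
    | p i l => exact ⟨.inr (.inl (i, l)), rfl⟩
    | z => exact ⟨.inr (.inr ()), rfl⟩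
  · refine le_trans ?_ (SimpleGraph.edist_le_ediam
      (u := vp hh 0 ((2 * (D + 1) : ℕ) : ZMod (2 * h))) (v := vg hh _ (rh_ne hh)))
    obtain ⟨w, hw⟩ := (connected hh).exists_walk_length_eq_edist
      (vp hh 0 ((2 * (D + 1) : ℕ) : ZMod (2 * h))) (vg hh _ (rh_ne hh))
    rw [← hw]
    have h1 := pot_walk hh w
    have h2 : pot h (vp hh 0 ((2 * (D + 1) : ℕ) : ZMod (2 * h))).1 = 2 * (D + 1) := by
      show (ZMod.castHom (dvd_mul_left h 2) (ZMod h)
        (((2 * (D + 1) : ℕ) : ZMod (2 * h)) - 0)).valMinAbs.natAbs = _
      rw [sub_zero, map_natCast, ZMod.valMinAbs_natCast_of_le_half (by omega)]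
      rfl
    have h3 : pot h (vg hh _ (rh_ne hh)).1 = 0 := rfl
    rw [h2, h3] at h1
    exact_mod_cast (by omega : D ≤ w.length)

end Pool.Agent.Results.MP_cf426b_al.RankThree
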